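import Pool.Agent.U17.FD.Main

set_option autoImplicit false
open MeasureTheory ProbabilityTheory Filter
open scoped Pointwise

/-!
Q1 of MP_de94ef_pr (planar first-passage percolation with Exp(1) weights) is equivalent to a
statement on the laws of the passage times at finite distances, without the time constant and
without the limit shape.

The proof (`Pool.Agent.U17.FD.*`) uses the basic facts on passage times in `Pool.Agent.N662.FP.*`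
(helper662 and the helpers named there) and the equivalences for the outer half in
`Pool.Agent.U874.FP.*` (helper874).
-/

namespace Pool.Agent.Results.MP_de94ef_pr.FiniteDistance

/-- the fattened cluster at time `t`, for the passage times `T` from the origin -/
def Cluster (T : ℤ × ℤ → ℝ) (t : ℝ) : Set (ℝ × ℝ) :=
  {x : ℝ × ℝ | ∃ v : ℤ × ℤ, T v ≤ t ∧ |x.1 - (v.1 : ℝ)| ≤ 1 / 2 ∧ |x.2 - (v.2 : ℝ)| ≤ 1 / 2}

/-- the event that the fattened cluster at time `t` is not contained in `(1 + t ^ (-κ)) t` times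
the limit shape -/
def Escaped {Ω : Type} (T : Ω → ℤ × ℤ → ℝ) (μ : ℝ × ℝ → ℝ) (κ t : ℝ) : Set Ω :=
  {ω | ¬ (Cluster (T ω) t ⊆ ((1 + t ^ (-κ)) * t) • {x : ℝ × ℝ | μ x ≤ 1})}

/-- the event that a part of `(1 - t ^ (-κ)) t` times the limit shape is missed by the fattened
cluster at time `t` -/
def Missed {Ω : Type} (T : Ω → ℤ × ℤ → ℝ) (μ : ℝ × ℝ → ℝ) (κ t : ℝ) : Set Ω :=
  {ω | ¬ (((1 - t ^ (-κ)) * t) • {x : ℝ × ℝ | μ x ≤ 1} ⊆ Cluster (T ω) t)}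

/-- the lattice point `v` as a point of the plane -/
def pt (v : ℤ × ℤ) : ℝ × ℝ := ((v.1 : ℝ), (v.2 : ℝ))

/-- the size of a lattice point -/
def size (v : ℤ × ℤ) : ℝ := max |(v.1 : ℝ)| |(v.2 : ℝ)|

/-- the mean passage time from the origin to `v` -/
noncomputable def mean {Ω : Type} [MeasureSpace Ω] (T : Ω → ℤ × ℤ → ℝ) (v : ℤ × ℤ) : ℝ :=
  ∫ ω, T ω v ∂(volume : Measure Ω)

/-- every lattice point `v` has a point of `W` at distance `O(|v| ^ (1 - κ))` -/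
def Dense (W : Set (ℤ × ℤ)) (κ : ℝ) : Prop :=
  ∃ C : ℝ, ∀ v : ℤ × ℤ, ∃ w ∈ W, size (v - w) ≤ C * (1 + size v) ^ (1 - κ)

/-- the defect `N E T(w) - E T(N w)` of the means is `O(|w| ^ (1 - κ))` for the points `w` of `W` -/
def SmallDefect {Ω : Type} [MeasureSpace Ω] (T : Ω → ℤ × ℤ → ℝ) (N : ℕ) (W : Set (ℤ × ℤ))
    (κ : ℝ) : Prop :=
  ∃ B : ℝ, ∀ w ∈ W, N * mean T w - mean T ((N : ℤ) • w) ≤ B * (1 + size w) ^ (1 - κ)

/-- `P(T(v) ≤ E T(v) - (1 + |v|) ^ (1 - κ)) = O(|v| ^ (-q))` -/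
def LowerTail {Ω : Type} [MeasureSpace Ω] (T : Ω → ℤ × ℤ → ℝ) (κ q : ℝ) : Prop :=
  ∃ C : ℝ, ∀ v : ℤ × ℤ,
    (volume : Measure Ω).real {ω | T ω v ≤ mean T v - (1 + size v) ^ (1 - κ)} ≤
      C * (1 + size v) ^ (-q)

/-- `E |T(w) - E T(w)| = O(|w| ^ (1 - κ))` for the points `w` of `W` -/
def Deviation {Ω : Type} [MeasureSpace Ω] (T : Ω → ℤ × ℤ → ℝ) (W : Set (ℤ × ℤ)) (κ : ℝ) : Prop :=
  ∃ A : ℝ, ∀ w ∈ W,
    ∫ ω, |T ω w - mean T w| ∂(volume : Measure Ω) ≤ A * (1 + size w) ^ (1 - κ)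

theorem result :
  ∀ (Ω : Type) [MeasureSpace Ω] [IsProbabilityMeasure (volume : Measure Ω)]
    (X : Sym2 (ℤ × ℤ) → Ω → ℝ) (T : Ω → ℤ × ℤ → ℝ) (μ : ℝ × ℝ → ℝ),
    (∀ e, Measurable (X e)) →
    iIndepFun X (volume : Measure Ω) →
    (∀ e, Measure.map (X e) (volume : Measure Ω) = expMeasure 1) →
    (∀ ω v, T ω v = sInf {s : ℝ | ∃ n : ℕ, ∃ p : ℕ → ℤ × ℤ, p 0 = 0 ∧ p n = v ∧
        (∀ i < n, |(p (i + 1)).1 - (p i).1| + |(p (i + 1)).2 - (p i).2| = 1) ∧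
        s = ∑ i ∈ Finset.range n, X s(p i, p (i + 1)) ω}) →
    (∀ (x : ℝ × ℝ) (c : ℝ), 0 ≤ c → μ (c • x) = c * μ x) →
    Continuous μ →
    (∀ z : ℤ × ℤ, ∀ᵐ ω ∂(volume : Measure Ω),
        Tendsto (fun n : ℕ => T ω ((n : ℤ) • z) / (n : ℝ)) atTop
          (nhds (μ ((z.1 : ℝ), (z.2 : ℝ))))) →
    -- (1) both halves at all exponents below `K`; for `K = 2 / 3` the left side is Q1 and the power
    -- on the right side is `11`
    (∀ (K : ℝ) (N : ℕ) (W : Set (ℤ × ℤ)), K < 1 → 2 ≤ N →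
      (∀ κ : ℝ, 0 < κ → κ < K → Dense W κ) →
      ((∀ κ : ℝ, 0 < κ → κ < K → ∀ q : ℝ, 0 < q →
        Asymptotics.IsBigO atTop
          (fun t : ℝ => (volume : Measure Ω).real (Escaped T μ κ t)) (fun t : ℝ => t ^ (-q)) ∧
        Asymptotics.IsBigO atTop
          (fun t : ℝ => (volume : Measure Ω).real (Missed T μ κ t)) (fun t : ℝ => t ^ (-q))) ↔
      ∀ κ : ℝ, 0 < κ → κ < K → SmallDefect T N W κ ∧
        LowerTail T κ (3 + 2 ^ (1 / (1 - K))))) ∧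
    -- (2) the inner half
    (∀ (K : ℝ) (N : ℕ) (W : Set (ℤ × ℤ)), K < 1 → 2 ≤ N →
      (∀ κ : ℝ, 0 < κ → κ < K → Dense W κ) →
      ((∀ κ : ℝ, 0 < κ → κ < K → ∀ q : ℝ, 0 < q →
        Asymptotics.IsBigO atTop
          (fun t : ℝ => (volume : Measure Ω).real (Missed T μ κ t)) (fun t : ℝ => t ^ (-q))) ↔
      ∀ κ : ℝ, 0 < κ → κ < K → SmallDefect T N W κ ∧ Deviation T W κ)) ∧
    -- (3) the outer half
    (∀ K : ℝ, K < 1 →
      (∀ κ : ℝ, 0 < κ → κ < K → LowerTail T κ (3 + 2 ^ (1 / (1 - K)))) →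
      ∀ κ : ℝ, 0 < κ → κ < K → ∀ q : ℝ, 0 < q → Asymptotics.IsBigO atTop
        (fun t : ℝ => (volume : Measure Ω).real (Escaped T μ κ t)) (fun t : ℝ => t ^ (-q))) ∧
    -- (4) the nonrandom fluctuations at one exponent
    (∀ (κ : ℝ) (N : ℕ) (W : Set (ℤ × ℤ)), 0 < κ → κ < 1 → 2 ≤ N → Dense W κ →
      ((∃ A : ℝ, ∀ v : ℤ × ℤ, mean T v ≤ μ (pt v) + A * (1 + size v) ^ (1 - κ)) ↔
        SmallDefect T N W κ)) := by
  intro Ω _ _ X T μ h1 h2 h3 hT hhom hcont hlim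
  obtain ⟨hX, hTD, p, hp, hG⟩ :=
    Pool.Agent.N662.FP.setup Ω X T μ h1 h2 h3 hT hhom hcont hlim
  subst hp
  refine ⟨?_, ?_, ?_, ?_⟩
  · exact fun K N W hK hN hW => Pool.Agent.U17.FD.both hX p hK hTD hG hlim hN hW
  · exact fun K N W hK hN hW => Pool.Agent.U17.FD.inner hX p hK hTD hG hlim hN hW
  · exact fun K hK h => Pool.Agent.U17.FD.outer hX p hK hTD hG hlim h
  · exact fun κ N W h0 h1 hN hW => Pool.Agent.U17.FD.one hX p hTD hG hlim h0 h1 hN hW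

end Pool.Agent.Results.MP_de94ef_pr.FiniteDistance
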