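import Pool.Agent.U685.IN.All

set_option autoImplicit false
open MeasureTheory ProbabilityTheory Filter
open scoped Pointwise

/-!
The inner half of Q1 of MP_de94ef_pr (planar first-passage percolation with Exp(1) weights) fails
with any exponent larger than `4 / 5` in place of `2 / 3`.

The proof: `Pool.Agent.U685.IN.*` (helper685) with the parts `Pool.Agent.U139.IX.UT`,
`Pool.Agent.U141.IX.FAR`, `Pool.Agent.U934.IX.CRX`, `Pool.Agent.U765.IX.TILT`,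
`Pool.Agent.U667.IX.DET`, `Pool.Agent.U165.IX.PATH2` (helpers 139, 141, 934, 765, 667, 165). It uses
the basic facts on passage times in `Pool.Agent.N662.FP.*` and the direction of contact in
`Pool.Agent.U874.FL.Geo2`.
-/

namespace Pool.Agent.Results.MP_de94ef_pr.InnerExponentBound

/-- the fattened cluster at time `t`, for the passage times `T` from the origin -/
def Cluster (T : ℤ × ℤ → ℝ) (t : ℝ) : Set (ℝ × ℝ) :=
  {x : ℝ × ℝ | ∃ v : ℤ × ℤ, T v ≤ t ∧ |x.1 - (v.1 : ℝ)| ≤ 1 / 2 ∧ |x.2 - (v.2 : ℝ)| ≤ 1 / 2}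

/-- the event that a part of `(1 - t ^ (-κ)) t` times the limit shape is missed by the fattened
cluster at time `t` -/
def Missed {Ω : Type} (T : Ω → ℤ × ℤ → ℝ) (μ : ℝ × ℝ → ℝ) (κ t : ℝ) : Set Ω :=
  {ω | ¬ (((1 - t ^ (-κ)) * t) • {x : ℝ × ℝ | μ x ≤ 1} ⊆ Cluster (T ω) t)}

/-- the lattice point `v` as a point of the plane -/
def pt (v : ℤ × ℤ) : ℝ × ℝ := ((v.1 : ℝ), (v.2 : ℝ))

theorem result :
  ∀ (Ω : Type) [MeasureSpace Ω] [IsProbabilityMeasure (volume : Measure Ω)]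
    (X : Sym2 (ℤ × ℤ) → Ω → ℝ) (T : Ω → ℤ × ℤ → ℝ) (μ : ℝ × ℝ → ℝ),
    (∀ e, Measurable (X e)) →
    iIndepFun X (volume : Measure Ω) →
    (∀ e, Measure.map (X e) (volume : Measure Ω) = expMeasure 1) →
    (∀ ω v, T ω v = sInf {s : ℝ | ∃ n : ℕ, ∃ p : ℕ → ℤ × ℤ, p 0 = 0 ∧ p n = v ∧
        (∀ i < n, |(p (i + 1)).1 - (p i).1| + |(p (i + 1)).2 - (p i).2| = 1) ∧
        s = ∑ i ∈ Finset.range n, X s(p i, p (i + 1)) ω}) →
    (∀ (x : ℝ × ℝ) (c : ℝ), 0 ≤ c → μ (c • x) = c * μ x) →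
    Continuous μ →
    (∀ z : ℤ × ℤ, ∀ᵐ ω ∂(volume : Measure Ω),
        Tendsto (fun n : ℕ => T ω ((n : ℤ) • z) / (n : ℝ)) atTop
          (nhds (μ ((z.1 : ℝ), (z.2 : ℝ))))) →
    -- (1) the probability of the inner event with `κ > 4 / 5` has upper limit at least `1 / e`
    (∀ κ e : ℝ, 4 / 5 < κ → e < Real.exp (-1) →
      ∃ᶠ t : ℝ in atTop, e < (volume : Measure Ω).real (Missed T μ κ t)) ∧
    -- (2) so the inner half of Q1 fails with `κ > 4 / 5` in place of `2 / 3 - ζ`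
    (∀ κ q : ℝ, 4 / 5 < κ → 0 < q → ¬ Asymptotics.IsBigO atTop
        (fun t : ℝ => (volume : Measure Ω).real (Missed T μ κ t)) (fun t : ℝ => t ^ (-q))) ∧
    -- (3) the one-point form
    (∀ κ e C : ℝ, 4 / 5 < κ → e < Real.exp (-1) → ∃ v : ℤ × ℤ,
      e < (volume : Measure Ω).real {ω | μ (pt v) + C * (1 + μ (pt v)) ^ (1 - κ) ≤ T ω v}) ∧
    -- (4) the mean of the upward deviation
    (∀ κ C : ℝ, 4 / 5 < κ → ∃ v : ℤ × ℤ,
      C * (1 + μ (pt v)) ^ (1 - κ) < ∫ ω, max (T ω v - μ (pt v)) 0 ∂(volume : Measure Ω)) := by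
  intro Ω _ _ X T μ h1 h2 h3 hT hhom hcont hlim
  obtain ⟨hX, hTD, p, hp, hG⟩ :=
    Pool.Agent.N662.FP.setup Ω X T μ h1 h2 h3 hT hhom hcont hlim
  subst hp
  subst hTD
  have hK := Pool.Agent.U685.IN.cKEY
  refine ⟨?_, ?_, ?_, ?_⟩
  · intro κ e hκ he
    exact Pool.Agent.U685.IN.not_bad hK hX hG κ e hκ he
  · intro κ q hκ hq
    exact Pool.Agent.U685.IN.not_bigO hK hX hG κ q hκ hq
  · intro κ e C hκ he
    exact Pool.Agent.U685.IN.one_all hK hX hG κ e C hκ he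
  · intro κ C hκ
    exact Pool.Agent.U685.IN.mean_all hK hX hG κ C hκ

end Pool.Agent.Results.MP_de94ef_pr.InnerExponentBound
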