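import Pool.Agent.U874.FL.Fin

set_option autoImplicit false
open MeasureTheory ProbabilityTheory Filter
open scoped Pointwise

/-!
The outer half of Q1 of MP_de94ef_pr (planar first-passage percolation with Exp(1) weights) fails
with any exponent larger than `4 / 5` in place of `2 / 3`.

The proof: `Pool.Agent.U874.FL.*`. It uses the bootstrap in `Pool.Agent.U874.FP.*`, the basic facts
on passage times in `Pool.Agent.N662.FP.*` (helper662 and the helpers named there), and the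
random perturbations of product measures in `Pool.Agent.U874.RG.*`.
-/

namespace Pool.Agent.Results.MP_de94ef_pr.OuterExponentBound

/-- the fattened cluster at time `t`, for the passage times `T` from the origin -/
def Cluster (T : ℤ × ℤ → ℝ) (t : ℝ) : Set (ℝ × ℝ) :=
  {x : ℝ × ℝ | ∃ v : ℤ × ℤ, T v ≤ t ∧ |x.1 - (v.1 : ℝ)| ≤ 1 / 2 ∧ |x.2 - (v.2 : ℝ)| ≤ 1 / 2}

/-- the event that the fattened cluster at time `t` is not contained in `(1 + t ^ (-κ)) t` times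
the limit shape -/
def Escaped {Ω : Type} (T : Ω → ℤ × ℤ → ℝ) (μ : ℝ × ℝ → ℝ) (κ t : ℝ) : Set Ω :=
  {ω | ¬ (Cluster (T ω) t ⊆ ((1 + t ^ (-κ)) * t) • {x : ℝ × ℝ | μ x ≤ 1})}

/-- the lattice point `v` as a point of the plane -/
def pt (v : ℤ × ℤ) : ℝ × ℝ := ((v.1 : ℝ), (v.2 : ℝ))

theorem result :
  ∀ (Ω : Type) [MeasureSpace Ω] [IsProbabilityMeasure (volume : Measure Ω)]
    (X : Sym2 (ℤ × ℤ) → Ω → ℝ) (T : Ω → ℤ × ℤ → ℝ) (μ : ℝ × ℝ → ℝ),
    (∀ e, Measurable (X e)) →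
    iIndepFun X (volume : Measure Ω) →
    (∀ e, Measure.map (X e) (volume : Measure Ω) = expMeasure 1) →
    (∀ ω v, T ω v = sInf {s : ℝ | ∃ n : ℕ, ∃ p : ℕ → ℤ × ℤ, p 0 = 0 ∧ p n = v ∧
        (∀ i < n, |(p (i + 1)).1 - (p i).1| + |(p (i + 1)).2 - (p i).2| = 1) ∧
        s = ∑ i ∈ Finset.range n, X s(p i, p (i + 1)) ω}) →
    (∀ (x : ℝ × ℝ) (c : ℝ), 0 ≤ c → μ (c • x) = c * μ x) →
    Continuous μ →
    (∀ z : ℤ × ℤ, ∀ᵐ ω ∂(volume : Measure Ω),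
        Tendsto (fun n : ℕ => T ω ((n : ℤ) • z) / (n : ℝ)) atTop
          (nhds (μ ((z.1 : ℝ), (z.2 : ℝ))))) →
    -- (1) the outer half of Q1 fails with `κ > 4 / 5` in place of `2 / 3 - ζ`
    (∀ κ q : ℝ, 4 / 5 < κ → 33 < q → ¬ Asymptotics.IsBigO atTop
        (fun t : ℝ => (volume : Measure Ω).real (Escaped T μ κ t)) (fun t : ℝ => t ^ (-q))) ∧
    -- (2) for every small `ε` the rate of the lower large deviations is at most `c μ(v) ε ^ (1 / κ)`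
    -- in some direction `v`
    (∀ κ c : ℝ, 4 / 5 < κ → 0 < c → ∃ ε1 : ℝ, 0 < ε1 ∧ ∀ ε : ℝ, 0 < ε → ε < ε1 →
      ∃ v : ℤ × ℤ, v ≠ 0 ∧ ∀ᶠ n : ℕ in atTop,
        Real.exp (-(c * (n * μ (pt v)) * ε ^ (1 / κ))) ≤
          (volume : Measure Ω).real {ω | T ω ((n : ℤ) • v) ≤ (1 - ε) * (n * μ (pt v))}) ∧
    -- (3) the one-point form
    (∀ κ q C : ℝ, 4 / 5 < κ → 35 < q → ∃ v : ℤ × ℤ,
      C * (1 + μ (pt v)) ^ (-q) <
        (volume : Measure Ω).real {ω | T ω v ≤ μ (pt v) - (1 + μ (pt v)) ^ (1 - κ)}) := by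
  intro Ω _ _ X T μ h1 h2 h3 hT hhom hcont hlim
  obtain ⟨hX, hTD, p, hp, hG⟩ :=
    Pool.Agent.N662.FP.setup Ω X T μ h1 h2 h3 hT hhom hcont hlim
  subst hp
  subst hTD
  refine ⟨?_, ?_, ?_⟩
  · intro κ q hκ hq
    exact U874.FL.not_esc hX p hG.norm hlim hκ hq
  · intro κ c hκ hc
    exact U874.FL.rate_all hX p hG.norm hlim hκ hc
  · intro κ q C hκ hq
    exact U874.FL.not_pt hX p hG.norm hlim hκ hq

end Pool.Agent.Results.MP_de94ef_pr.OuterExponentBound
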