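import Pool.Agent.U874.FP.Two

set_option autoImplicit false
open MeasureTheory ProbabilityTheory Filter
open scoped Pointwise

/-!
The outer half of Q1 of MP_de94ef_pr (planar first-passage percolation with Exp(1) weights), and
the two-sided statement.

The bootstrap and everything it uses: `Pool.Agent.U874.FP.*`. It builds on the basic facts on
passage times in `Pool.Agent.N662.FP.*` (helper662 and the helpers named there).
-/

namespace Pool.Agent.Results.MP_de94ef_pr.OuterHalf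

/-- the fattened cluster at time `t`, for the passage times `T` from the origin -/
def Cluster (T : ℤ × ℤ → ℝ) (t : ℝ) : Set (ℝ × ℝ) :=
  {x : ℝ × ℝ | ∃ v : ℤ × ℤ, T v ≤ t ∧ |x.1 - (v.1 : ℝ)| ≤ 1 / 2 ∧ |x.2 - (v.2 : ℝ)| ≤ 1 / 2}

/-- the event that the fattened cluster at time `t` is not contained in `(1 + t ^ (-κ)) t` times
the limit shape -/
def Escaped {Ω : Type} (T : Ω → ℤ × ℤ → ℝ) (μ : ℝ × ℝ → ℝ) (κ t : ℝ) : Set Ω :=
  {ω | ¬ (Cluster (T ω) t ⊆ ((1 + t ^ (-κ)) * t) • {x : ℝ × ℝ | μ x ≤ 1})}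

/-- the event that a part of `(1 - t ^ (-κ)) t` times the limit shape is missed by the fattened
cluster at time `t` -/
def Missed {Ω : Type} (T : Ω → ℤ × ℤ → ℝ) (μ : ℝ × ℝ → ℝ) (κ t : ℝ) : Set Ω :=
  {ω | ¬ (((1 - t ^ (-κ)) * t) • {x : ℝ × ℝ | μ x ≤ 1} ⊆ Cluster (T ω) t)}

/-- the lattice point `v` as a point of the plane -/
def pt (v : ℤ × ℤ) : ℝ × ℝ := ((v.1 : ℝ), (v.2 : ℝ))

/-- the lower tails: `P(T(v) ≤ (1 - ε) μ(v)) ≤ exp(-c μ(v) ε ^ (1 / κ))` for every lattice point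
`v` and every `ε` in `[0, 1]` -/
def LowerTails {Ω : Type} [MeasureSpace Ω] (T : Ω → ℤ × ℤ → ℝ) (μ : ℝ × ℝ → ℝ) (κ c : ℝ) : Prop :=
  ∀ (v : ℤ × ℤ) (ε : ℝ), 0 ≤ ε → ε ≤ 1 →
    (volume : Measure Ω).real {ω | T ω v ≤ (1 - ε) * μ (pt v)} ≤
      Real.exp (-(c * μ (pt v) * ε ^ (1 / κ)))

theorem result :
  ∀ (Ω : Type) [MeasureSpace Ω] [IsProbabilityMeasure (volume : Measure Ω)]
    (X : Sym2 (ℤ × ℤ) → Ω → ℝ) (T : Ω → ℤ × ℤ → ℝ) (μ : ℝ × ℝ → ℝ),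
    (∀ e, Measurable (X e)) →
    iIndepFun X (volume : Measure Ω) →
    (∀ e, Measure.map (X e) (volume : Measure Ω) = expMeasure 1) →
    (∀ ω v, T ω v = sInf {s : ℝ | ∃ n : ℕ, ∃ p : ℕ → ℤ × ℤ, p 0 = 0 ∧ p n = v ∧
        (∀ i < n, |(p (i + 1)).1 - (p i).1| + |(p (i + 1)).2 - (p i).2| = 1) ∧
        s = ∑ i ∈ Finset.range n, X s(p i, p (i + 1)) ω}) →
    (∀ (x : ℝ × ℝ) (c : ℝ), 0 ≤ c → μ (c • x) = c * μ x) →
    Continuous μ →
    (∀ z : ℤ × ℤ, ∀ᵐ ω ∂(volume : Measure Ω),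
        Tendsto (fun n : ℕ => T ω ((n : ℤ) • z) / (n : ℝ)) atTop
          (nhds (μ ((z.1 : ℝ), (z.2 : ℝ))))) →
    -- (1) one exponent `κ`, one power `q`
    (∀ κ κ' q : ℝ, 0 < κ' → κ' < κ → κ < 1 → 1 + 2 ^ (1 / (1 - κ')) < q →
      Asymptotics.IsBigO atTop
        (fun t : ℝ => (volume : Measure Ω).real (Escaped T μ κ t)) (fun t : ℝ => t ^ (-q)) →
      (∃ c : ℝ, 0 < c ∧ LowerTails T μ κ' c) ∧
      ∀ κ'' : ℝ, 0 < κ'' → κ'' < κ' → ∃ b : ℝ, 0 < b ∧ ∀ᶠ t : ℝ in atTop,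
        (volume : Measure Ω).real (Escaped T μ κ'' t) ≤ Real.exp (-(t ^ b))) ∧
    -- (2) all exponents below `K`; for `K = 2 / 3` the first item is the outer half of Q1, the
    -- power in the second item is `9`, and the power in the last item is `11`
    (∀ K : ℝ, K < 1 → List.TFAE [
      ∀ κ : ℝ, 0 < κ → κ < K → ∀ q : ℝ, 0 < q → Asymptotics.IsBigO atTop
        (fun t : ℝ => (volume : Measure Ω).real (Escaped T μ κ t)) (fun t : ℝ => t ^ (-q)),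
      ∀ κ : ℝ, 0 < κ → κ < K → Asymptotics.IsBigO atTop
        (fun t : ℝ => (volume : Measure Ω).real (Escaped T μ κ t))
        (fun t : ℝ => t ^ (-(1 + 2 ^ (1 / (1 - K)) : ℝ))),
      ∀ κ : ℝ, 0 < κ → κ < K → ∃ b : ℝ, 0 < b ∧
        ∀ᶠ t : ℝ in atTop, (volume : Measure Ω).real (Escaped T μ κ t) ≤ Real.exp (-(t ^ b)),
      ∀ κ : ℝ, 0 < κ → κ < K → ∃ c : ℝ, 0 < c ∧ LowerTails T μ κ c,
      -- the lower-tail rate function in every direction `v` is at least `c μ(v) ε ^ (1 / κ)`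
      ∀ κ : ℝ, 0 < κ → κ < K → ∃ c : ℝ, 0 < c ∧
        ∀ (v : ℤ × ℤ) (ε δ : ℝ), 0 < ε → ε ≤ 1 → 0 < δ → ∀ᶠ n : ℕ in atTop,
          (volume : Measure Ω).real {ω | T ω ((n : ℤ) • v) ≤ (1 - ε) * (n * μ (pt v))} ≤
            Real.exp (-(n * (c * μ (pt v) * ε ^ (1 / κ) - δ))),
      ∀ κ : ℝ, 0 < κ → κ < K → ∃ C : ℝ, 0 < C ∧ ∀ v : ℤ × ℤ,
        (volume : Measure Ω).real {ω | T ω v ≤ μ (pt v) - (1 + μ (pt v)) ^ (1 - κ)} ≤
          C * (1 + μ (pt v)) ^ (-(3 + 2 ^ (1 / (1 - K))) : ℝ)]) ∧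
    -- (3) for `K = 2 / 3` the left side is Q1
    (∀ K : ℝ, K < 1 →
      ((∀ κ : ℝ, 0 < κ → κ < K → ∀ q : ℝ, 0 < q →
        Asymptotics.IsBigO atTop
          (fun t : ℝ => (volume : Measure Ω).real (Escaped T μ κ t)) (fun t : ℝ => t ^ (-q)) ∧
        Asymptotics.IsBigO atTop
          (fun t : ℝ => (volume : Measure Ω).real (Missed T μ κ t)) (fun t : ℝ => t ^ (-q))) ↔
      ∀ κ : ℝ, 0 < κ → κ < K → (∃ c : ℝ, 0 < c ∧ LowerTails T μ κ c) ∧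
        ∃ A : ℝ, ∀ v : ℤ × ℤ, ∫ ω, T ω v ∂(volume : Measure Ω) ≤
          μ (pt v) + A * (1 + μ (pt v)) ^ (1 - κ))) := by
  intro Ω _ _ X T μ h1 h2 h3 hT hhom hcont hlim
  obtain ⟨hX, hTD, p, hp, hG⟩ :=
    Pool.Agent.N662.FP.setup Ω X T μ h1 h2 h3 hT hhom hcont hlim
  subst hp
  refine ⟨?_, ?_, ?_⟩
  · intro κ κ' q h0 h1 hκ hq hE
    have hL : ∃ c : ℝ, 0 < c ∧ LowerTails T p κ' c := by
      rw [hTD] at hE ⊢
      exact Pool.Agent.U874.FP.low_of_esc hX p hG.norm h0 h1 hκ hq hE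
    refine ⟨hL, fun κ'' h2 h3 => ?_⟩
    obtain ⟨c, hc, hcc⟩ := hL
    exact Pool.Agent.U874.FP.esc_of_low p hG.norm h2 h3 (h1.trans hκ) hc hcc
  · exact fun K hK => Pool.Agent.U874.FP.outer_tfae hX p hG.norm hK hTD
  · exact fun K hK => Pool.Agent.U874.FP.two_sided hX p hK hTD hG

end Pool.Agent.Results.MP_de94ef_pr.OuterHalf
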